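import Pool.Agent.COS.Stmts

set_option autoImplicit false

namespace Pool.Agent.COS.H49

open Pool.Agent.COS

theorem z2 : ∀ x : ZMod 2, x ≠ 0 → x = 1 := by decide

theorem z2a : ∀ x y : ZMod 2, x + y = 0 → x = y := by decide

theorem isUni_one {n : ℕ} : IsUni (1 : Matrix (Fin n) (Fin n) (ZMod 2)) :=
  ⟨fun i => Matrix.one_apply_eq i, fun _ _ h => Matrix.one_apply_ne h.ne'⟩

theorem isUni_mul {n : ℕ} {A B : Matrix (Fin n) (Fin n) (ZMod 2)} (hA : IsUni A)
    (hB : IsUni B) : IsUni (A * B) := by
  constructor
  · intro i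
    rw [Matrix.mul_apply, Finset.sum_eq_single i]
    · rw [hA.1, hB.1, one_mul]
    · intro k _ hk
      rcases lt_or_gt_of_ne hk with h | h
      · rw [hA.2 i k h, zero_mul]
      · rw [hB.2 k i h, mul_zero]
    · intro h; exact absurd (Finset.mem_univ i) h
  · intro i j hij
    rw [Matrix.mul_apply]
    refine Finset.sum_eq_zero fun k _ => ?_
    rcases lt_or_ge k i with h | h
    · rw [hA.2 i k h, zero_mul]
    · rw [hB.2 k j (lt_of_lt_of_le hij h), mul_zero]

theorem lead_ex {n : ℕ} (a : Gr n) (i : Fin n) : ∃ r, Lead a.1 r i := by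
  have h1 : ∃ r, a.1 r i ≠ 0 := by
    by_contra h
    push Not at h
    have h2 : ((a⁻¹ : Gr n).1 * a.1) i i = 1 := by
      have h3 : (a⁻¹ : Gr n).1 * a.1 = 1 := a.inv_mul
      rw [h3, Matrix.one_apply_eq]
    rw [Matrix.mul_apply] at h2
    simp only [h, mul_zero, Finset.sum_const_zero] at h2
    exact zero_ne_one h2
  obtain ⟨r, hr, hmin⟩ := WellFounded.has_min (wellFounded_lt : WellFounded (α := Fin n) (· < ·))
    {r | a.1 r i ≠ 0} h1
  refine ⟨r, z2 _ hr, fun s hs => ?_⟩
  by_contra h
  exact hmin s h hs

theorem col {n : ℕ} {u : Matrix (Fin n) (Fin n) (ZMod 2)} (hu : IsUni u)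
    (a : Matrix (Fin n) (Fin n) (ZMod 2)) (s j : Fin n) :
    (a * u) s j = (∑ k, if k < j then a s k * u k j else 0) + a s j := by
  have h1 : ∀ k, a s k * u k j =
      (if k < j then a s k * u k j else 0) + (if k = j then a s j else 0) := by
    intro k
    rcases lt_trichotomy k j with h | h | h
    · rw [if_pos h, if_neg h.ne, add_zero]
    · subst h
      rw [if_neg (lt_irrefl _), if_pos rfl, hu.1, mul_one, zero_add]
    · rw [if_neg h.asymm, if_neg h.ne', hu.2 k j h, mul_zero, add_zero]
  rw [Matrix.mul_apply, Finset.sum_congr rfl fun k _ => h1 k, Finset.sum_add_distrib,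
    Finset.sum_ite_eq' Finset.univ j, if_pos (Finset.mem_univ j)]

/-- the key of a matrix: column after column -/
def key {n : ℕ} (a : Gr n) : Lex (Fin n → Lex (Fin n → ℕ)) :=
  toLex fun j => toLex fun r => (a.1 r j).val

theorem red : RedStmt := by
  intro n g
  obtain ⟨S, hS⟩ : ∃ S : Set (Gr n), S = {a | ∃ u : Gr n, IsUni u.1 ∧ g = a * u} := ⟨_, rfl⟩
  have hne : S.Nonempty := ⟨g, by
    rw [hS]
    exact ⟨1, isUni_one, (mul_one g).symm⟩⟩
  obtain ⟨a, haS, hmin⟩ := Set.exists_min_image S key (Set.toFinite S) hne
  have haS' : ∃ u : Gr n, IsUni u.1 ∧ g = a * u := by rw [hS] at haS; exact haS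
  have hred : Red a.1 := by
    intro i j hij r hr
    by_contra hne1
    have h1 : a.1 r j = 1 := z2 _ hne1
    have hTT : Matrix.transvection i j (1 : ZMod 2) * Matrix.transvection i j 1 = 1 := by
      rw [Matrix.transvection_mul_transvection_same i j hij.ne]
      have h2 : (1 : ZMod 2) + 1 = 0 := by decide
      rw [h2, Matrix.transvection_zero]
    obtain ⟨T, hT⟩ : ∃ T : Gr n, T.1 = Matrix.transvection i j (1 : ZMod 2) :=
      ⟨⟨Matrix.transvection i j 1, Matrix.transvection i j 1, hTT, hTT⟩, rfl⟩
    have hT2 : T * T = 1 := by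
      apply Units.ext
      show T.1 * T.1 = 1
      rw [hT, hTT]
    have hTu : IsUni T.1 := by
      rw [hT]
      constructor
      · intro k
        rw [Matrix.transvection, Matrix.add_apply, Matrix.one_apply_eq,
          Matrix.single_apply_of_ne _ _ _ _ _ (by
            rintro ⟨h3, h4⟩
            exact hij.ne (h3.trans h4.symm)), add_zero]
      · intro k l hlk
        rw [Matrix.transvection, Matrix.add_apply, Matrix.one_apply_ne hlk.ne',
          Matrix.single_apply_of_ne _ _ _ _ _ (by
            rintro ⟨h3, h4⟩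
            rw [h3, h4] at hij
            exact absurd hij hlk.asymm), add_zero]
    obtain ⟨u, hu, hgu⟩ := haS'
    have hb : a * T ∈ S := by
      rw [hS]
      refine ⟨T * u, ?_, ?_⟩
      · exact isUni_mul hTu hu
      · rw [mul_assoc, ← mul_assoc T T u, hT2, one_mul]
        exact hgu
    have h5 := hmin _ hb
    refine absurd h5 (not_le.mpr ?_)
    refine ⟨j, fun j' hj' => ?_, r, fun s hs => ?_, ?_⟩
    · show (toLex fun r => ((a * T).1 r j').val) = toLex fun r => (a.1 r j').val
      congr 1
      funext s
      show ((a.1 * T.1) s j').val = (a.1 s j').val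
      rw [hT, Matrix.mul_transvection_apply_of_ne _ _ _ _ hj'.ne]
    · show ((a.1 * T.1) s j).val = (a.1 s j).val
      rw [hT, Matrix.mul_transvection_apply_same, hr.2 s hs, mul_zero, add_zero]
    · show ((a.1 * T.1) r j).val < (a.1 r j).val
      rw [hT, Matrix.mul_transvection_apply_same, hr.1, h1]
      decide
  refine ⟨a, ⟨hred, haS'⟩, ?_⟩
  rintro a' ⟨hred', u', hu', hgu'⟩
  obtain ⟨u, hu, hgu⟩ := haS'
  have hkey : ∀ j : Fin n, ∀ s, a.1 s j = a'.1 s j := by
    intro j
    induction j using WellFoundedLT.induction with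
    | ind j ih =>
      have hcol : ∀ s, a.1 s j + a'.1 s j =
          ∑ k, if k < j then a.1 s k * (u.1 k j + u'.1 k j) else 0 := by
        intro s
        have h1 := col hu a.1 s j
        have h2 := col hu' a'.1 s j
        have h3 : (a.1 * u.1) s j = (a'.1 * u'.1) s j := by
          have h4 : a.1 * u.1 = a'.1 * u'.1 := by
            have h5 : a * u = a' * u' := hgu.symm.trans hgu'
            exact congrArg Units.val h5
          rw [h4]
        rw [h1, h2] at h3
        have h4 : ∀ k, (if k < j then a'.1 s k * u'.1 k j else 0) =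
            (if k < j then a.1 s k * u'.1 k j else 0) := by
          intro k
          split_ifs with h
          · rw [ih k h s]
          · rfl
        rw [Finset.sum_congr rfl fun k _ => h4 k] at h3
        have h5 : ∑ k, (if k < j then a.1 s k * (u.1 k j + u'.1 k j) else 0) =
            (∑ k, if k < j then a.1 s k * u.1 k j else 0) +
              ∑ k, if k < j then a.1 s k * u'.1 k j else 0 := by
          rw [← Finset.sum_add_distrib]
          refine Finset.sum_congr rfl fun k _ => ?_
          split_ifs
          · rw [mul_add]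
          · rw [add_zero]
        rw [h5]
        generalize (∑ k, if k < j then a.1 s k * u.1 k j else 0) = x at h3 ⊢
        generalize (∑ k, if k < j then a.1 s k * u'.1 k j else 0) = y at h3 ⊢
        generalize a.1 s j = z at h3 ⊢
        generalize a'.1 s j = w at h3 ⊢
        revert x y z w
        decide
      have hc : ∀ k < j, u.1 k j + u'.1 k j = 0 := by
        by_contra hcon
        push Not at hcon
        obtain ⟨k₀, ⟨hk₀j, hk₀⟩, hmin0⟩ := WellFounded.has_min
          (wellFounded_lt : WellFounded (α := Fin n) (· < ·))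
          {k | k < j ∧ u.1 k j + u'.1 k j ≠ 0} hcon
        obtain ⟨r, hr⟩ := lead_ex a k₀
        have hr' : Lead a'.1 r k₀ :=
          ⟨by rw [← ih k₀ hk₀j r]; exact hr.1, fun s hs => by rw [← ih k₀ hk₀j s]; exact hr.2 s hs⟩
        have h1 := hcol r
        rw [hred k₀ j hk₀j r hr, hred' k₀ j hk₀j r hr', add_zero,
          Finset.sum_eq_single k₀] at h1
        · rw [if_pos hk₀j, hr.1, one_mul, z2 _ hk₀] at h1
          exact zero_ne_one h1
        · intro k _ hkk
          split_ifs with hkj
          · rcases lt_or_gt_of_ne hkk with h | h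
            · have h2 : u.1 k j + u'.1 k j = 0 := by
                by_contra h3
                exact hmin0 k ⟨hkj, h3⟩ h
              rw [h2, mul_zero]
            · rw [hred k₀ k h r hr, zero_mul]
          · rfl
        · intro h; exact absurd (Finset.mem_univ k₀) h
      intro s
      have h1 := hcol s
      rw [Finset.sum_eq_zero] at h1
      · exact z2a _ _ h1
      · intro k _
        split_ifs with h
        · rw [hc k h, mul_zero]
        · rfl
  apply Units.ext
  ext s j
  exact (hkey j s).symm

end Pool.Agent.COS.H49
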