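import Pool.Agent.COS.Stmts
import Pool.Agent.Helper49_COS.RED

set_option autoImplicit false

namespace Pool.Agent.COS.H49

open Pool.Agent.COS

theorem isUni_pow {n : ℕ} {u : Gr n} (hu : IsUni u.1) : ∀ k : ℕ, IsUni (u ^ k : Gr n).1 := by
  intro k
  induction k with
  | zero => rw [pow_zero]; exact isUni_one
  | succ k ih => rw [pow_succ]; exact isUni_mul ih hu

theorem isUni_inv {n : ℕ} {u : Gr n} (hu : IsUni u.1) : IsUni (u⁻¹ : Gr n).1 := by
  have h1 : u⁻¹ = u ^ (orderOf u - 1) := by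
    have h2 : u ^ (orderOf u - 1) * u = 1 := by
      rw [← pow_succ, Nat.sub_add_cancel (orderOf_pos u), pow_orderOf_eq_one]
    exact inv_eq_of_mul_eq_one_left h2
  rw [h1]
  exact isUni_pow hu _

theorem cast_odd (m : ℕ) : (m : ZMod 2) = 1 ↔ Odd m := ZMod.natCast_eq_one_iff_odd

theorem sum (hprs : PrsStmt) (hfrm : FrmStmt) (hhom : HomStmt) : SumStmt := by
  intro n W hW
  classical
  have hsec : ∀ a a' : Gr n, (Sec W a a').Nonempty →
      Odd {f : Fr (n * n) | IsFrame (Sec W a a') f}.ncard := by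
    intro a a' hne
    refine hfrm (n * n) (Sec W a a') ?_ hne
    have h1 : Heap {u : Gr n | IsUni u.1 ∧ a' * u * a⁻¹ ∈ W} := by
      rintro u ⟨hu, hu'⟩ v ⟨hv, hv'⟩ w ⟨hw, hw'⟩
      refine ⟨isUni_mul (isUni_mul hu (isUni_inv hv)) hw, ?_⟩
      have h2 := hW _ hu' _ hv' _ hw'
      have h3 : a' * u * a⁻¹ * (a' * v * a⁻¹)⁻¹ * (a' * w * a⁻¹) = a' * (u * v⁻¹ * w) * a⁻¹ := by
        group
      rwa [h3] at h2
    exact hhom n {u : Gr n | IsUni u.1 ∧ a' * u * a⁻¹ ∈ W} h1 fun u hu => hu.1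
  have hcard : ∀ a a' : Gr n, (({f : Fr (n * n) | IsFrame (Sec W a a') f}.ncard : ℕ) : ZMod 2) =
      if (Sec W a a').Nonempty then 1 else 0 := by
    intro a a'
    split_ifs with h
    · exact (cast_odd _).mpr (hsec a a' h)
    · have h1 : {f : Fr (n * n) | IsFrame (Sec W a a') f} = ∅ := by
        ext f
        simp only [Set.mem_setOf_eq, Set.mem_empty_iff_false, iff_false]
        intro hf
        exact h ⟨_, hf.mem⟩
      rw [h1, Set.ncard_empty, Nat.cast_zero]
  have hnc : ∀ (α : Type) [Fintype α] (P : α → Prop), {x | P x}.ncard =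
      ∑ x, if P x then 1 else 0 := by
    intro α _ P
    have h1 : {x | P x} = ((Finset.univ.filter P : Finset α) : Set α) := by
      ext x; simp
    rw [h1, Set.ncard_coe_finset, Finset.card_filter]
  have hT : (({t : Gr n × Gr n × Fr (n * n) | Tup W t}.ncard : ℕ) : ZMod 2) =
      (({p : Gr n × Gr n | Red p.1.1 ∧ Red p.2.1 ∧ ∃ u : Gr n, IsUni u.1 ∧
        p.2 * u * p.1⁻¹ ∈ W}.ncard : ℕ) : ZMod 2) := by
    rw [hnc, hnc, Fintype.sum_prod_type, Fintype.sum_prod_type]
    push_cast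
    refine Finset.sum_congr rfl fun a _ => ?_
    rw [Fintype.sum_prod_type]
    refine Finset.sum_congr rfl fun a' _ => ?_
    by_cases hr : Red a.1 ∧ Red a'.1
    · have h1 : ∀ f : Fr (n * n), (if Tup W (a, a', f) then (1 : ZMod 2) else 0) =
          (((if IsFrame (Sec W a a') f then 1 else 0 : ℕ)) : ZMod 2) := by
        intro f
        by_cases hf : IsFrame (Sec W a a') f
        · rw [if_pos (show Tup W (a, a', f) from ⟨hr.1, hr.2, hf⟩), if_pos hf, Nat.cast_one]
        · rw [if_neg (fun h : Tup W (a, a', f) => hf h.2.2), if_neg hf, Nat.cast_zero]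
      rw [Finset.sum_congr rfl fun f _ => h1 f, ← Nat.cast_sum, ← hnc, hcard]
      have h2 : (Sec W a a').Nonempty ↔ (Red a.1 ∧ Red a'.1 ∧ ∃ u : Gr n, IsUni u.1 ∧
          a' * u * a⁻¹ ∈ W) := by
        constructor
        · rintro ⟨w, u, hu, -⟩
          exact ⟨hr.1, hr.2, u, hu⟩
        · rintro ⟨-, -, u, hu⟩
          exact ⟨ent u.1, u, hu, rfl⟩
      by_cases h3 : (Sec W a a').Nonempty
      · rw [if_pos h3, if_pos (h2.mp h3)]
      · rw [if_neg h3, if_neg (fun h => h3 (h2.mpr h))]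
    · rw [if_neg (fun h => hr ⟨h.1, h.2.1⟩)]
      refine Finset.sum_eq_zero fun f _ => ?_
      rw [if_neg (fun h : Tup W (a, a', f) => hr ⟨h.1, h.2.1⟩)]
  constructor
  · intro hodd
    have h1 := (cast_odd _).mpr hodd
    rw [hT] at h1
    have h2 := (cast_odd _).mp h1
    have h3 : {p : Gr n × Gr n | Red p.1.1 ∧ Red p.2.1 ∧ ∃ u : Gr n, IsUni u.1 ∧
        p.2 * u * p.1⁻¹ ∈ W}.Nonempty := by
      by_contra h4
      rw [Set.not_nonempty_iff_eq_empty] at h4
      rw [h4, Set.ncard_empty] at h2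
      exact absurd h2 (by decide)
    obtain ⟨p, -, -, u, -, hu⟩ := h3
    exact ⟨_, hu⟩
  · intro hne
    have h1 := (cast_odd _).mpr (hprs n W hne hW)
    rw [← hT] at h1
    exact (cast_odd _).mp h1

end Pool.Agent.COS.H49
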